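import Pool.Agent.Q44.MX.StmD

/-! Lemma job MX-ASYN for helper44: the asymptotics with an arbitrary regularity. -/

set_option autoImplicit false

open scoped Classical

namespace Pool.Agent.Q68.MX

open Finset Filter
open Q44.BM (Fam Ok SS RR HM sml_many sml_cut sml_coll)
open Pool.Agent.Y703.CX (sm la jj XX eL zz kk S_SIE eL_tendsto logX_eq rpow_eL HH NN ev_eL one_le_exp
  HH_ge HH_le HH_pos kk_ge kk_le X_pos one_add_log lin_le kap zz_ge zz_pos kap_nonneg kap_pow kap_le)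
open Pool.Agent.Y703.CQ (Sml sml_of sml_add sml_rpow)
open Pool.Agent.Y687.JQ (sml_mainJ sml_sum)
open Pool.Agent.Q144.NB (out_sub)
open Q155.NB

/-- **MX-ASYN.** -/
theorem t_ASYN : Q44.MX.S_ASYN := by
  intro hKEY Φ δ hΦ T K hBX
  obtain ⟨c, X₀, hc, hlow⟩ := hΦ.low
  have hdp := hΦ.pos
  rw [Metric.tendsto_nhds]
  intro ε hε
  obtain ⟨N, hB, hbad⟩ := hBX (ε / 4) (by linarith)
  obtain ⟨C, hC1, hkey⟩ := hKEY
  have s1 := sml_many Φ (t := 1 - δ) (by linarith)
  have s2 := sml_cut Φ (t := 1 - δ) (by linarith)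
  have s3 := sml_coll Φ (t := 1 - δ) (by linarith)
  have s6 := sml_mainJ hC1 (t := 1 - δ) (by linarith)
  have s := sml_add (sml_add (sml_add s1 s2) s3) s6
  have hδ : (0 : ℝ) < c * ε / 4 := by positivity
  have hkt : ∀ n : ℕ, ∀ᶠ X : ℕ in atTop, n ≤ kk X := by
    intro n
    filter_upwards [ev_eL (n + 1)] with X hX
    have h2 := kk_ge X
    have h0 : (0 : ℝ) ≤ n := Nat.cast_nonneg _
    have : (n : ℝ) ≤ kk X := by linarith
    exact_mod_cast this
  filter_upwards [s (c * ε / 4) hδ, ev_eL 1, eventually_ge_atTop X₀,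
    hkt 1, hkt K, hbad] with X hX hl hX0 hkM hkK hbX
  have hl0 : 0 < eL X := by linarith
  have hlo := hlow X hX0
  have e00 : (-1 + δ : ℝ) = -(1 - δ) := by ring
  rw [e00, rpow_eL hl0] at hlo
  have hXp := X_pos hl0
  have hXp' : (0 : ℝ) < X := by exact_mod_cast hXp
  have hSpos : (0 : ℝ) < ((SS Φ X).card : ℝ) := by
    refine lt_of_lt_of_le ?_ hlo
    positivity
  have hN : (HH X : ℝ) * Real.log X < NN X := by
    unfold NN
    push_cast
    exact Nat.lt_floor_add_one _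
  have hmain := hkey Φ N T ∅ K (ε / 4) (by linarith) hB X (zz X) (HH X) (kk X) (NN X)
    (kap C X) hkK (fun u hu => absurd hu (by simp)) (by simp) hkM hXp (HH_pos hl0) (zz_pos hl)
    (kap_nonneg hC1 X) (kap_pow hC1 hl) hN
  set Q := (RR Φ X (zz X) (HH X) (kk X)).filter fun S =>
    N (sm (zz X) S) (la (zz X) S) with hQ
  have hQS : Q ⊆ SS Φ X := (filter_subset _ _).trans (filter_subset _ _)
  have hTG : (((RR Φ X (zz X) (HH X) (kk X)).filter
      (fun S => N (sm (zz X) S) (la (zz X) S) ∧ T S)).card : ℝ) ≤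
        (((SS Φ X).filter T).card : ℝ) := by
    have h1 : (RR Φ X (zz X) (HH X) (kk X)).filter
      (fun S => N (sm (zz X) S) (la (zz X) S) ∧ T S) ⊆ (SS Φ X).filter T := by
      intro S hS
      rw [mem_filter] at hS ⊢
      exact ⟨(filter_subset _ _) hS.1, hS.2.2⟩
    exact_mod_cast card_le_card h1
  have hRS : ((RR Φ X (zz X) (HH X) (kk X)).card : ℝ) ≤ ((SS Φ X).card : ℝ) := by
    exact_mod_cast card_le_card (filter_subset _ _)
  have hout : ((SS Φ X \ Q).card : ℝ) ≤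
      ((((SS Φ X).filter fun S => kk X < S.card).card : ℝ) +
      (((SS Φ X).filter fun S => S.card ≤ kk X ∧
        X < (∏ p ∈ sm (zz X) S, p) * ∏ p ∈ la (zz X) S, XX (HH X) (jj (HH X) p)).card : ℝ) +
      (((SS Φ X).filter fun S => ¬ Set.InjOn (jj (HH X)) (la (zz X) S : Set ℕ)).card : ℝ)) +
      (((SS Φ X).filter fun S => S.card ≤ kk X ∧
        ¬ N (sm (zz X) S) (la (zz X) S)).card : ℝ) := by
    have g := card_le_card (out_sub Φ N X (zz X) (HH X) (kk X))
    rw [← hQ] at g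
    have g2 := (g.trans (card_union_le _ _)).trans (Nat.add_le_add_right
      ((card_union_le _ _).trans (Nat.add_le_add_right (card_union_le _ _) _)) _)
    exact_mod_cast g2
  have hsplit : ((SS Φ X).card : ℝ) = ((SS Φ X \ Q).card : ℝ) + (Q.card : ℝ) := by
    have h1 := card_sdiff_add_card_eq_card hQS
    exact_mod_cast h1.symm
  have hbX2 : (((SS Φ X).filter fun S => S.card ≤ kk X ∧
        ¬ N (sm (zz X) S) (la (zz X) S)).card : ℝ) ≤ ε / 4 * ((SS Φ X).card : ℝ) := by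
    refine le_trans ?_ hbX
    have h1 : ((SS Φ X).filter fun S => S.card ≤ kk X ∧ ¬ N (sm (zz X) S) (la (zz X) S)) ⊆
        (SS Φ X).filter fun S => ¬ N (sm (zz X) S) (la (zz X) S) := by
      intro S hS
      rw [mem_filter] at hS ⊢
      exact ⟨hS.1, hS.2.2⟩
    exact_mod_cast card_le_card h1
  have htot : ((SS Φ X).card : ℝ) - (((SS Φ X).filter T).card : ℝ) ≤
      ε / 4 * ((SS Φ X).card : ℝ) + ε / 4 * ((SS Φ X).card : ℝ) +
        c * ε / 4 * (X * Real.exp (-(1 - δ) * eL X)) := by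
    have g1 : ε / 4 * ((RR Φ X (zz X) (HH X) (kk X)).card : ℝ) ≤
        ε / 4 * ((SS Φ X).card : ℝ) := mul_le_mul_of_nonneg_left hRS (by positivity)
    linarith
  have hTle : (((SS Φ X).filter T).card : ℝ) ≤ ((SS Φ X).card : ℝ) := by
    exact_mod_cast card_le_card (filter_subset _ _)
  rw [Real.dist_eq]
  have e3 : (((SS Φ X).filter T).card : ℝ) / ((SS Φ X).card : ℝ) - 1 =
      - ((((SS Φ X).card : ℝ) - (((SS Φ X).filter T).card : ℝ)) /
        ((SS Φ X).card : ℝ)) := by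
    field_simp
    ring
  rw [e3, abs_neg, abs_of_nonneg (div_nonneg (by linarith) hSpos.le), div_lt_iff₀ hSpos]
  refine lt_of_le_of_lt htot ?_
  have g2 : c * ε / 4 * (X * Real.exp (-(1 - δ) * eL X)) ≤ ε / 4 * ((SS Φ X).card : ℝ) := by
    calc c * ε / 4 * (X * Real.exp (-(1 - δ) * eL X)) =
          ε / 4 * (c * X * Real.exp (-(1 - δ) * eL X)) := by ring
      _ ≤ _ := mul_le_mul_of_nonneg_left hlo (by linarith)
  have g4 : 0 < ε * ((SS Φ X).card : ℝ) := by positivity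
  linarith

end Pool.Agent.Q68.MX
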